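import Pool.Agent.Q138.Diamond

set_option autoImplicit false

/-!
# Low-dimensional `ℓ₁` embeddings of treewidth-2 Bayesian network metrics

A Bayesian network `D : BayesNet V` has one binary variable for each element of the finite type
`V`, so `N = Fintype.card V`.
-/

namespace Pool.Agent.Results.MP_4d0cf5_co.PolynomialDimension

open Q138.Diamond

/-- The answer to Q1 is negative, in a quantitative form: for every `C` there are a `δ > 0` and
networks of treewidth 2 on arbitrarily large numbers `N` of binary variables for which every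
embedding of `d_D` into `ℓ₁^k` with distortion at most `C` has `k ≥ N ^ δ`. Hence there are no
constant `C` and function `k(N) = N^{o(1)}` as in Q1. -/
theorem result :
    (∀ C : ℝ, 1 ≤ C → ∃ δ : ℝ, 0 < δ ∧ ∀ M : ℕ,
      ∃ (V : Type) (_ : Fintype V) (_ : DecidableEq V) (D : BayesNet V),
        M ≤ Fintype.card V ∧ TreewidthTwo D.graph ∧
        ∀ k : ℕ, Embeds D.d k C → (Fintype.card V : ℝ) ^ δ ≤ k) ∧
    ¬ ∃ (C : ℝ) (k : ℕ → ℕ), 1 ≤ C ∧
      (∀ ε : ℝ, 0 < ε → ∀ᶠ N : ℕ in Filter.atTop, (k N : ℝ) ≤ (N : ℝ) ^ ε) ∧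
      ∀ (V : Type) [Fintype V] [DecidableEq V] (D : BayesNet V), TreewidthTwo D.graph →
        Embeds D.d (k (Fintype.card V)) C := by
  have main : ∀ C : ℝ, 1 ≤ C → ∃ δ : ℝ, 0 < δ ∧ ∀ M : ℕ,
      ∃ (V : Type) (_ : Fintype V) (_ : DecidableEq V) (D : BayesNet V),
        M ≤ Fintype.card V ∧ TreewidthTwo D.graph ∧
        ∀ k : ℕ, Embeds D.d k C → (Fintype.card V : ℝ) ^ δ ≤ k := by
    intro C hC
    have hlog4 : 0 < Real.log 4 := Real.log_pos (by norm_num)
    set c : ℝ := 1 / (8 * C * (1 + 2 * C) * (2 * Real.log 4)) with hc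
    have hc0 : 0 < c := by positivity
    refine ⟨c / 2, by positivity, fun M => ?_⟩
    set n : ℕ := max M ⌈(1 + 2 * C) ^ (2 / c)⌉₊ with hn
    refine ⟨(st (n + 1)).V, inferInstance, inferInstance, (st (n + 1)).D, ?_, tw_two n, ?_⟩
    · have h1 := le_card_V (n + 1)
      have h2 : M ≤ n := le_max_left _ _
      omega
    · intro k hk
      have h1 := dim_lower C hC (n + 1) hk
      set N : ℝ := (Fintype.card (st (n + 1)).V : ℝ) with hN
      have hNn : ((n : ℝ) + 1) ≤ N := by
        have := le_card_V (n + 1)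
        rw [hN]
        exact_mod_cast this
      have hn0 : (0 : ℝ) ≤ n := Nat.cast_nonneg n
      have hN1 : 1 ≤ N := by linarith
      have hN0 : 0 < N := by linarith
      have hNup : Real.log N ≤ 2 * ((n : ℝ) + 1) * Real.log 4 := by
        have h2 : N ≤ (4 : ℝ) ^ (n + 2) := by
          have := card_V (n + 1)
          rw [hN]
          exact_mod_cast this
        have h3 := Real.log_le_log hN0 h2
        rw [Real.log_pow] at h3
        push_cast at h3
        nlinarith
      -- `1 + 2 k C ≥ N ^ c`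
      have h4 : c * Real.log N ≤ Real.log (1 + 2 * k * C) := by
        refine le_trans ?_ h1
        push_cast
        rw [hc, one_div, inv_mul_le_iff₀ (by positivity)]
        refine hNup.trans (le_of_eq ?_)
        field_simp
      have hpos : 0 < 1 + 2 * (k : ℝ) * C := by positivity
      have h5 : N ^ c ≤ 1 + 2 * k * C := by
        rw [← Real.log_le_log_iff (Real.rpow_pos_of_pos hN0 _) hpos, Real.log_rpow hN0]
        exact h4
      -- `N ^ (c / 2) ≥ 1 + 2 C`
      have h6 : 1 + 2 * C ≤ N ^ (c / 2) := by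
        have h7 : (1 + 2 * C) ^ (2 / c) ≤ N := by
          have h8 := Nat.le_ceil ((1 + 2 * C) ^ (2 / c))
          have h9 : ((⌈(1 + 2 * C) ^ (2 / c)⌉₊ : ℕ) : ℝ) ≤ n := by
            exact_mod_cast le_max_right _ _
          linarith
        have h10 := Real.rpow_le_rpow (by positivity) h7 (by positivity : 0 ≤ c / 2)
        rwa [← Real.rpow_mul (by positivity), show 2 / c * (c / 2) = 1 by field_simp,
          Real.rpow_one] at h10
      have h11 : N ^ c = N ^ (c / 2) * N ^ (c / 2) := by
        rw [← Real.rpow_add hN0]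
        congr 1
        ring
      have hk1 : (1 : ℝ) ≤ k := by
        rcases Nat.eq_zero_or_pos k with h0 | h0
        · exfalso
          subst h0
          rw [h11] at h5
          simp at h5
          nlinarith
        · exact_mod_cast h0
      rw [h11] at h5
      by_contra hcon
      rw [not_le] at hcon
      nlinarith
  refine ⟨main, ?_⟩
  rintro ⟨C, k, hC, hk, hemb⟩
  obtain ⟨δ, hδ, h⟩ := main C hC
  obtain ⟨N₀, hN₀⟩ := Filter.eventually_atTop.1 (hk (δ / 2) (by positivity))
  obtain ⟨V, _, _, D, h1, h2, h3⟩ := h (max N₀ 2)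
  have h4 := h3 _ (hemb V D h2)
  have h5 := hN₀ (Fintype.card V) ((le_max_left _ _).trans h1)
  have h6 : (2 : ℝ) ≤ Fintype.card V := by exact_mod_cast (le_max_right _ _).trans h1
  have h7 : (Fintype.card V : ℝ) ^ (δ / 2) < (Fintype.card V : ℝ) ^ δ :=
    Real.rpow_lt_rpow_of_exponent_lt (by linarith) (by linarith)
  linarith

end Pool.Agent.Results.MP_4d0cf5_co.PolynomialDimension
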